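import Pool.Agent.TH285.MG.Fam2

/-!
# Margulis' injectivity radius conjecture over abelian and nearly abelian number fields

All torsion-free arithmetic groups which are defined over a number field `k` that is abelian over a
fixed number field `K` form a uniformly discrete family; more generally this holds if `k` is a
Galois extension of `K` such that, for a fixed `m`, the `m`-th powers of the elements of the Galois
group have a bounded number of conjugates.

`Pool.Agent.H225R3.MargDefs` contains the definitions: `Realization ρ Γ k n S` (a homomorphism `r`
from `Γ` to the `n` by `n` matrices over the ring of integers of `k`, bounded under all embeddings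
outside `S`, such that for `σ` in `S` the eigenvalues of `σ (r γ)` are eigenvalues of `ρ γ`, and such
that only `1` is mapped to a unipotent matrix) and `UniformlyDiscrete` (there is an identity
neighbourhood `U` such that `g U g⁻¹` meets every group of the family in the identity only).

Method: the coefficients of the characteristic polynomial of `r γ` form a point of `P ^ n (k)`;
squaring the matrix induces an endomorphism of `P ^ n` of degree `2` with good, purely inseparable
reduction at the primes above `2`, and the canonical height of the point is bounded in terms of the
eigenvalues of `r γ`.  The lower bound for canonical heights of `Pool.Agent.H627.LP.final` applies.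
-/

set_option autoImplicit false

open NumberField Pool.Agent.H225R3.Marg

namespace Pool.Agent.Results.MP_162bbe_gt.AbelianTraceFields

/-- The number field `k` is a Galois extension of `K` and, for all `σ` in the Galois group, `σ ^ m`
has at most `B` conjugates. For `m = B = 1` this means that `k` is an abelian extension of `K`. -/
def FewConjugates (K : Type) [Field K] (m B : ℕ) (k : Type) [Field k] : Prop :=
  ∃ (_ : Algebra K k) (_ : IsGalois K k),
    ∀ σ : Gal(k/K), (Set.range fun g : Gal(k/K) => g * σ ^ m * g⁻¹).ncard ≤ B

/-- The torsion-free subgroups `Γ` of `G` which have a realization by matrices of size `n`, with at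
most `s` noncompact embeddings, over a number field `k` with `FewConjugates K m B k`. -/
def Family (K : Type) [Field K] (m B s n : ℕ) {G : Type*} [Group G] {M : ℕ}
    (ρ : G →* Matrix (Fin M) (Fin M) ℂ) : Set (Subgroup G) :=
  {Γ | (∀ γ ∈ Γ, ∀ N : ℕ, 0 < N → γ ^ N = 1 → γ = 1) ∧
    ∃ (k : Type) (_ : Field k) (_ : NumberField k) (S : Finset (k →+* ℂ))
      (_ : Realization ρ Γ k n S), S.card ≤ s ∧ FewConjugates K m B k}

/-- Let `G` be a topological group, `ρ` a continuous finite dimensional complex representation of
`G` (for instance the complexified adjoint representation of a semisimple Lie group), and `K` a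
number field. For all `n`, `s`, `B` and `m ≥ 1`, the family of all torsion-free subgroups of `G`
that are realized by integral matrices of size `n`, with at most `s` noncompact embeddings, over a
number field which is a Galois extension of `K` in whose Galois group `m`-th powers have at most `B`
conjugates, is uniformly discrete. For `m = B = 1` these are the abelian extensions of `K`. -/
theorem result {G : Type*} [Group G] [TopologicalSpace G] {M : ℕ}
    (ρ : G →* Matrix (Fin M) (Fin M) ℂ) (hρ : Continuous ρ)
    (K : Type) [Field K] [NumberField K] (m B s n : ℕ) (hm : 1 ≤ m) :
    UniformlyDiscrete (Family K m B s n ρ) := by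
  obtain ⟨U, hU, h⟩ := Pool.Agent.TH285.MG.uniform_galois K m B s n hm ρ hρ
  refine ⟨U, hU, ?_⟩
  rintro Γ ⟨htf, k, i1, i2, S, R, hS, i3, i4, hc⟩
  exact h Γ ⟨htf, k, i1, i2, i3, i4, S, R, hS, hc⟩

end Pool.Agent.Results.MP_162bbe_gt.AbelianTraceFields
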