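import Pool.Agent.TH285.MG.Cnt

/-!
# Few characteristic polynomials of short elements in arithmetic groups

For EVERY arithmetic group over EVERY number field `k`, the elements which are conjugate into a
fixed small identity neighbourhood of `G` (in the torsion-free case they give the short closed
geodesics) have at most polynomially many characteristic polynomials, in terms of the degree
of `k`. Margulis' conjecture predicts only one in the torsion-free case. There is no condition on
the field `k`, and no congruence condition.

`Pool.Agent.H225R3.MargDefs` contains the definition of `Realization ρ Γ k n S`: a homomorphism `r`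
from `Γ` to the `n` by `n` matrices over the ring of integers of `k`, bounded under all embeddings
outside `S`, such that for `σ` in `S` the eigenvalues of `σ (r γ)` are eigenvalues of `ρ γ`, and such
that only `1` is mapped to a unipotent matrix.

Method: the coefficients of the characteristic polynomial of `r γ` form a point of `P ^ n (k)`;
squaring the matrix induces an endomorphism of `P ^ n` of degree `2`, with purely inseparable
reduction at the primes above `2`; the canonical height of the point is small.
The bound of `Pool.Agent.W238.Leh.general` for the number of points of small canonical height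
applies.
-/

set_option autoImplicit false

open NumberField Module Pool.Agent.H225R3.Marg

namespace Pool.Agent.Results.MP_162bbe_gt.FewShortLengths

/-- The characteristic polynomials of the matrices `r γ`, where `γ` runs through the elements of
`Γ` which are conjugate in `G` to an element of `U`. -/
def ShortPolys {G : Type*} [Group G] {M : ℕ} {ρ : G →* Matrix (Fin M) (Fin M) ℂ}
    {Γ : Subgroup G} {k : Type} [Field k] [NumberField k] {n : ℕ} {S : Finset (k →+* ℂ)}
    (R : Realization ρ Γ k n S) (U : Set G) : Set (Polynomial (𝓞 k)) :=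
  {q | ∃ γ : Γ, (∃ g : G, ∃ u ∈ U, g * u * g⁻¹ = γ) ∧ (R.r γ).charpoly = q}

/-- Let `G` be a topological group and `ρ` a continuous finite dimensional complex representation of
`G` (for instance the complexified adjoint representation of a semisimple Lie group). For all `n`,
`s` and `δ > 0` there are an identity neighbourhood `U` of `G` and a constant `C` such that for every
subgroup `Γ` of `G` with a realization by integral matrices of size `n`, with at most `s` noncompact
embeddings, over a number field `k`, the elements of `Γ` that are conjugate in `G` to an element of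
`U` have at most `C * [k : ℚ] ^ (n + δ)` characteristic polynomials. -/
theorem result {G : Type*} [Group G] [TopologicalSpace G] {M : ℕ}
    (ρ : G →* Matrix (Fin M) (Fin M) ℂ) (hρ : Continuous ρ) (n s : ℕ) (δ : ℝ) (hδ : 0 < δ) :
    ∃ U ∈ nhds (1 : G), ∃ C : ℝ, 0 < C ∧
      ∀ (Γ : Subgroup G) (k : Type) [Field k] [NumberField k] (S : Finset (k →+* ℂ))
        (R : Realization ρ Γ k n S), S.card ≤ s →
        (ShortPolys R U).Finite ∧
        ((ShortPolys R U).ncard : ℝ) ≤ C * (finrank ℚ k : ℝ) ^ ((n : ℝ) + δ) := by
  obtain ⟨ε, hε, C, hC, h⟩ := Pool.Agent.TH285.MG.few_polys n s δ hδ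
  refine ⟨_, nhd ρ hρ ε hε, C, hC, ?_⟩
  intro Γ k _ _ S R hS
  set U : Set G := {g : G | ∀ i j, ‖(ρ g - 1) i j‖ < ε / (M + 1)} with hU
  have h1 := h k S hS {A | ∃ γ : Γ, (∃ g : G, ∃ u ∈ U, g * u * g⁻¹ = γ) ∧ R.r γ = A} (by
    rintro A ⟨γ, ⟨g, u, hu, hγ⟩, rfl⟩
    refine ⟨fun σ hσ l hl => R.comp' γ σ hσ l hl, fun σ hσ l hl => ?_⟩
    have h1 : IsEig (ρ (γ : G)) l := R.eig σ hσ γ l hl
    have h2 : (ρ (g * u * g⁻¹)).charpoly = (ρ u).charpoly := by
      rw [map_mul, map_mul]
      have h4 : ρ g⁻¹ * ρ g = 1 := by rw [← map_mul, inv_mul_cancel, map_one]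
      rw [Matrix.charpoly_mul_comm, ← mul_assoc, h4, one_mul]
    rw [IsEig, ← hγ, h2] at h1
    exact close_eig (ρ u) ε hε hu l h1)
  have h2 : Matrix.charpoly '' {A | ∃ γ : Γ, (∃ g : G, ∃ u ∈ U, g * u * g⁻¹ = γ) ∧ R.r γ = A} =
      ShortPolys R U := by
    ext q
    constructor
    · rintro ⟨A, ⟨γ, hγ, rfl⟩, rfl⟩
      exact ⟨γ, hγ, rfl⟩
    · rintro ⟨γ, hγ, rfl⟩
      exact ⟨R.r γ, ⟨γ, hγ, rfl⟩, rfl⟩
  rw [h2] at h1
  exact h1

end Pool.Agent.Results.MP_162bbe_gt.FewShortLengths
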